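import Pool.Agent.Y624.SC.Stm3

set_option autoImplicit false

/-! Part PART: disjoint convex sets which contain the open cells lie in the closed cells. -/

namespace Pool.Agent.Y641.SC.PART

theorem unit {d : ℕ} {z : EuclideanSpace ℝ (Fin d)} (hz : z ≠ 0) : ‖‖z‖⁻¹ • z‖ = 1 := by
  rw [norm_smul, norm_inv, norm_norm, inv_mul_cancel₀ (norm_ne_zero_iff.2 hz)]

theorem done : Pool.Agent.Y624.SC.S_PART := by
  intro d hd w hw1 hw2 A hconv hdis hcell i x hx hxA l'
  by_contra hlt
  rw [not_le] at hlt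
  obtain ⟨l, hl⟩ := Finite.exists_max (fun j => inner ℝ x (w j))
  have hM : inner ℝ x (w i) < inner ℝ x (w l) := lt_of_lt_of_le hlt (hl l')
  have hli : l ≠ i := by
    rintro rfl
    exact lt_irrefl _ hM
  have hil : i ≠ l := fun h => hli h.symm
  have hd' : (2 : ℝ) ≤ d := by exact_mod_cast hd
  have hD0 : (0 : ℝ) < 1 / (d : ℝ) := by positivity
  have hD1 : 1 / (d : ℝ) ≤ 1 / 2 := by
    exact one_div_le_one_div_of_le (by norm_num) hd'
  set D : ℝ := 1 / (d : ℝ) with hD
  have hneg : -1 / (d : ℝ) = -D := by rw [hD]; ring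
  have hself : ∀ j, inner ℝ (w j) (w j) = 1 := by
    intro j
    rw [real_inner_self_eq_norm_sq, hw1 j, one_pow]
  set q0 : EuclideanSpace ℝ (Fin d) := w i + (1 / 2 : ℝ) • w l with hq0
  have hq : ∀ j, inner ℝ q0 (w j) = inner ℝ (w i) (w j) + 1 / 2 * inner ℝ (w l) (w j) := by
    intro j
    rw [hq0, inner_add_left, real_inner_smul_left]
  have hqi : inner ℝ q0 (w i) = 1 - D / 2 := by
    rw [hq, hself, hw2 l i hli, hneg]
    ring
  have hql : inner ℝ q0 (w l) = 1 / 2 - D := by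
    rw [hq, hself, hw2 i l hil, hneg]
    ring
  have hqj : ∀ j, j ≠ i → j ≠ l → inner ℝ q0 (w j) = -(3 / 2 * D) := by
    intro j h1 h2
    rw [hq, hw2 i j h1.symm, hw2 l j h2.symm, hneg]
    ring
  have hq00 : q0 ≠ 0 := by
    intro h
    rw [h, inner_zero_left] at hqi
    linarith
  have hqn : 0 < ‖q0‖ := norm_pos_iff.2 hq00
  have hqA : ‖q0‖⁻¹ • q0 ∈ A i := by
    refine hcell i _ (unit hq00) fun j hj => ?_
    rw [real_inner_smul_left, real_inner_smul_left]
    refine mul_lt_mul_of_pos_left ?_ (inv_pos.2 hqn)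
    by_cases hjl : j = l
    · rw [hjl, hql, hqi]
      linarith
    · rw [hqj j hj hjl, hqi]
      linarith
  set e : ℝ := (inner ℝ x (w l) - inner ℝ x (w i)) / 2 with he
  have he0 : 0 < e := by
    rw [he]
    linarith
  set z : EuclideanSpace ℝ (Fin d) := x + e • q0 with hz
  have hzj : ∀ j, inner ℝ z (w j) = inner ℝ x (w j) + e * inner ℝ q0 (w j) := by
    intro j
    rw [hz, inner_add_left, real_inner_smul_left]
  have heD : 0 < e * D := mul_pos he0 hD0
  have heD' : e * D ≤ e * (1 / 2) := mul_le_mul_of_nonneg_left hD1 he0.le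
  have hzlt : ∀ j, j ≠ l → inner ℝ z (w j) < inner ℝ z (w l) := by
    intro j hj
    rw [hzj, hzj, hql]
    by_cases hji : j = i
    · rw [hji, hqi]
      have h1 : inner ℝ x (w l) = inner ℝ x (w i) + 2 * e := by
        rw [he]
        ring
      rw [h1]
      nlinarith
    · rw [hqj j hji hj]
      have h1 := hl j
      have h2 : inner ℝ x (w j) ≤ inner ℝ x (w l) := h1
      nlinarith
  have hz0 : z ≠ 0 := by
    intro h
    have h1 := hzlt i hil
    rw [h, inner_zero_left, inner_zero_left] at h1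
    exact lt_irrefl _ h1
  have hzn : 0 < ‖z‖ := norm_pos_iff.2 hz0
  have hul : ‖z‖⁻¹ • z ∈ A l := by
    refine hcell l _ (unit hz0) fun j hj => ?_
    rw [real_inner_smul_left, real_inner_smul_left]
    exact mul_lt_mul_of_pos_left (hzlt j hj) (inv_pos.2 hzn)
  have heq : ‖z‖⁻¹ • z = ‖z‖⁻¹ • x + (‖z‖⁻¹ * e * ‖q0‖) • (‖q0‖⁻¹ • q0) := by
    rw [smul_smul, mul_assoc, mul_inv_cancel₀ hqn.ne', mul_one, hz, smul_add, smul_smul]
  have hui : ‖z‖⁻¹ • z ∈ A i := by
    rw [heq]
    refine hconv i x hxA hx _ hqA (unit hq00) _ _ (inv_pos.2 hzn).le ?_ ?_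
    · exact mul_nonneg (mul_nonneg (inv_pos.2 hzn).le he0.le) hqn.le
    · rw [← heq]
      exact unit hz0
  exact hdis i l hil _ (unit hz0) hui hul

end Pool.Agent.Y641.SC.PART
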